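import Pool.Agent.Run7.h133.CfMat
import Pool.Agent.Run7.h133.CfChiC

set_option autoImplicit false

/-!
# The excluded minors of `M'` are not just `U_{2,5}`, `U_{3,5}`, `F_7` and `F_7^*` (MP_cf16d9_co)

The non-Fano matroid `F_7^-` is ternary, hence it has none of the four matroids as a minor. But it
is not in `M'`, because four (indeed no even number) is in its p-characteristic set: in a
representation by discrete random variables, the six lines of `F_7^-` force an abelian group
of order `v` in which `(a, b, c) ↦ (a + b, b + c, a + c)` is injective, which is impossible if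
`v` is even.
-/

namespace Pool.Agent.Results.MP_cf16d9_co.NonFanoDiscrete

open Matroid Pool.Agent.Run7.h133 Pool.Agent.Run7.h133.Ray Pool.Agent.Run7.h133.Cf

/-- The p-characteristic set of `M`: the integers `v ≥ 2` such that `log v` times the rank function
of `M` is the entropy function of a discrete random vector indexed by the elements of `M`. If `F`
is false then all discrete random vectors are allowed (countably many values), if `F` is true then
only those on a finite probability space. -/
def chi (F : Prop) {α : Type} (M : Matroid α) : Set ℕ :=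
  {v | 2 ≤ v ∧ ∃ (Ω S : Type) (p : Ω → ℝ) (X : α → Ω → S), (F → Finite Ω) ∧
    (∀ ω, 0 ≤ p ω) ∧ HasSum p 1 ∧
      ∀ A ⊆ M.E, CfC.entropy p X A = ENNReal.ofReal (Real.log v * (M.eRk A).toNat)}

/-- `M` is regular: it is representable over every field. -/
def IsRegular {α : Type} (M : Matroid α) : Prop := ∀ (K : Type) [Field K], RepOver K M

/-- `M` is in the class `M'` (with the convention `F` on random vectors, see `chi`). -/
def InClass (F : Prop) {α : Type} (M : Matroid α) : Prop :=
  IsRegular M ∨ chi F M = {v : ℕ | 3 ≤ v ∧ v ≠ 6}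

/-- `M` is an excluded minor of the class `M'` (with the convention `F`, see `chi`). -/
def IsExcludedMinor (F : Prop) {α : Type} (M : Matroid α) : Prop :=
  ¬ InClass F M ∧ ∀ N : Matroid α, N <m M → InClass F N

/-- `M` is isomorphic to the uniform matroid `U_{k,n}`. -/
def IsUniform (k n : ℕ) {α : Type} (M : Matroid α) : Prop :=
  M.E.ncard = n ∧ ∀ B ⊆ M.E, (M.IsBase B ↔ B.ncard = k)

/-- `M` and `N` are isomorphic. -/
def Isomorphic {α β : Type} (M : Matroid α) (N : Matroid β) : Prop :=
  ∃ φ : α → β, Set.BijOn φ M.E N.E ∧ ∀ B ⊆ M.E, (M.IsBase B ↔ N.IsBase (φ '' B))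

theorem nf_no_even_c {Ω S : Type} {p : Ω → ℝ} {X : Fin 7 → Ω → S}
    (hp : ∀ ω, 0 ≤ p ω) (hp1 : HasSum p 1) {v : ℕ} (hv : 2 ≤ v) (hv2 : 2 ∣ v)
    (hH : ∀ A : Set (Fin 7),
      CfC.entropy p X A = ENNReal.ofReal (Real.log v * (nonFano.eRk A).toNat)) : False := by
  have hH2 : ∀ A : Set (Fin 7),
      HasSum (CfC.tm p X A) (Real.log v * ((nonFano.eRk A).toNat : ℕ)) := fun A =>
    CfC.hasSum_entropy hp hp1
      (mul_nonneg (Real.log_natCast_nonneg v) (Nat.cast_nonneg _)) (hH A)
  refine CfC.no_even hp hp1 hv hv2 (fun A => (nonFano.eRk A).toNat) hH2 nf_rk1 nf_rk2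
    (nf_rk_line (by decide) (by decide) (by decide) (by decide))
    (nf_rk_line (by decide) (by decide) (by decide) (by decide))
    (nf_rk_line (by decide) (by decide) (by decide) (by decide))
    (nf_rk_line (by decide) (by decide) (by decide) (by decide))
    (nf_rk_line (by decide) (by decide) (by decide) (by decide))
    (nf_rk_line (by decide) (by decide) (by decide) (by decide))
    (nf_rk_base {0, 1, 2} 7 (by decide) (by decide) (by simp))
    (nf_rk_base {6, 1, 2} 70 (by decide) (by decide) (by simp))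
    (nf_rk_base {6, 0, 2} 69 (by decide) (by decide) (by simp))
    (nf_rk_base {6, 0, 1} 67 (by decide) (by decide) (by simp))
    (nf_rk_base {3, 4, 5} 56 (by decide) (by decide) (by simp))
    (nf_rk_base {3, 4, 5} 56 (by decide) (by decide) ?_)
  intro x hx
  simp only [Finset.coe_insert, Finset.coe_singleton, Set.mem_insert_iff,
    Set.mem_singleton_iff] at hx ⊢
  tauto

/-- No even number is in the p-characteristic set of the non-Fano matroid. -/
theorem even_notMem_chi (F : Prop) {v : ℕ} (hv : v ∈ chi F nonFano) : ¬ 2 ∣ v := by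
  intro hv2
  obtain ⟨hv1, Ω, S, p, X, -, hp, hp1, hH⟩ := hv
  exact nf_no_even_c hp hp1 hv1 hv2 fun A => hH A (Set.subset_univ _)

theorem nonFano_notIn (F : Prop) : ¬ InClass F nonFano := by
  rintro (h | h)
  · exact nonFano_not_binary (h (ZMod 2))
  · have h4 : 4 ∈ chi F nonFano := by
      rw [h]
      exact ⟨by norm_num, by norm_num⟩
    exact even_notMem_chi F h4 (by norm_num)

theorem exists_excluded (F : Prop) {α : Type} [Finite α] (n : ℕ) :
    ∀ M : Matroid α, M.E.ncard = n → ¬ InClass F M →
      ∃ N : Matroid α, N ≤m M ∧ IsExcludedMinor F N := by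
  induction n using Nat.strong_induction_on with
  | _ n ih =>
    intro M hn hM
    by_cases h : IsExcludedMinor F M
    · exact ⟨M, IsMinor.refl, h⟩
    · unfold IsExcludedMinor at h
      push Not at h
      obtain ⟨N, hN, hNc⟩ := h hM
      have hlt : N.E.ncard < n := by
        rw [← hn]
        exact Set.ncard_lt_ncard hN.ssubset (Set.toFinite _)
      obtain ⟨N', h1, h2⟩ := ih _ hlt N rfl hNc
      exact ⟨N', h1.trans hN.isMinor, h2⟩

theorem iso_of {M N : Matroid (Fin 7)} (hM : M.E = Set.univ) (hN : N.E = Set.univ)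
    (h : Isomorphic M N) : Iso M N := by
  obtain ⟨φ, h1, h2⟩ := h
  rw [hM, hN, Set.bijOn_univ] at h1
  refine ⟨Equiv.ofBijective φ h1, fun B => ?_⟩
  exact h2 B (by rw [hM]; exact Set.subset_univ B)

theorem lines_card : ∀ t ∈ nfLines, t.card = 3 := by decide +kernel

theorem lines_one : ∀ x d : Fin 7, x ≠ d → ∃ t ∈ nfLines, x ∈ t ∧ d ∉ t := by decide +kernel

theorem lines_two : ∀ d₁ d₂ : Fin 7, ∃ t ∈ nfLines, d₁ ∉ t ∧ d₂ ∉ t := by decide +kernel

theorem uniform_data {N : Matroid (Fin 7)} (hN : N ≤m nonFano) {k : ℕ} (h : IsUniform k 5 N) :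
    ∃ X D : Finset (Fin 7), Disjoint X D ∧ N.E = ((X ∪ D : Finset (Fin 7)) : Set (Fin 7))ᶜ ∧
      k + X.card = 3 ∧ X.card + D.card = 2 ∧
      ∀ A : Finset (Fin 7), N.IsBase (A : Set (Fin 7)) ↔ Disjoint A (X ∪ D) ∧
        nonFano.IsBase ((A ∪ X : Finset (Fin 7)) : Set (Fin 7)) := by
  classical
  obtain ⟨X, D, hXD, hE, ⟨A0, hA0, hB0⟩, hB⟩ := minor_fam (M := nonFano) rfl hN
  refine ⟨X, D, hXD, hE, ?_, ?_, hB⟩
  · have h1 : N.IsBase (A0 : Set (Fin 7)) := (hB A0).2 ⟨hA0, hB0⟩
    have h2 := (h.2 _ h1.subset_ground).1 h1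
    rw [Set.ncard_coe_finset] at h2
    have h3 := hB0.encard_eq_eRank
    rw [nonFano_hb.2, Set.encard_coe_eq_coe_finsetCard] at h3
    have h4 : (A0 ∪ X).card = 3 := by exact_mod_cast h3
    rw [Finset.disjoint_union_right] at hA0
    rw [Finset.card_union_of_disjoint hA0.1, h2] at h4
    exact h4
  · have h1 := h.1
    rw [hE] at h1
    have h2 := Set.ncard_add_ncard_compl (((X ∪ D : Finset (Fin 7)) : Set (Fin 7)))
    rw [h1, Set.ncard_coe_finset, Finset.card_union_of_disjoint hXD, Nat.card_eq_fintype_card,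
      Fintype.card_fin] at h2
    omega

/-- There is an excluded minor of the class `M'`, namely a minor of the non-Fano matroid, which is
not isomorphic to any of `U_{2,5}`, `U_{3,5}`, `F_7`, `F_7^*`. This holds for both conventions: if
all discrete random vectors are allowed (`F` false), and if only random vectors on a finite
probability space are allowed (`F` true). -/
theorem result (F : Prop) : ∃ M : Matroid (Fin (3 + 4)), M ≤m nonFano ∧ IsExcludedMinor F M ∧
    ¬ IsUniform 2 5 M ∧ ¬ IsUniform 3 5 M ∧ ¬ Isomorphic M fano ∧ ¬ Isomorphic M fano✶ := by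
  classical
  obtain ⟨N, hN, hex⟩ := exists_excluded F _ nonFano rfl (nonFano_notIn F)
  have hfull : N.E.ncard = 7 → N = nonFano := by
    intro h
    have h1 : N.E = Set.univ := by
      apply Set.eq_of_subset_of_ncard_le (Set.subset_univ _)
      rw [h, Set.ncard_univ, Nat.card_eq_fintype_card, Fintype.card_fin]
    exact (hN.eq_of_ground_subset (by rw [h1]; exact Set.subset_univ _)).symm
  refine ⟨N, hN, hex, ?_, ?_, ?_, ?_⟩
  · intro h
    obtain ⟨X, D, hXD, hE, h1, h2, hB⟩ := uniform_data hN h
    obtain ⟨x, rfl⟩ := Finset.card_eq_one.1 (show X.card = 1 by omega)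
    obtain ⟨d, rfl⟩ := Finset.card_eq_one.1 (show D.card = 1 by
      rw [Finset.card_singleton] at h2; omega)
    have hxd : x ≠ d := by
      intro h3
      rw [h3] at hXD
      simp at hXD
    obtain ⟨t, ht, hxt, hdt⟩ := lines_one x d hxd
    have hA : Disjoint (t.erase x) ({x} ∪ {d}) := by
      rw [Finset.disjoint_union_right, Finset.disjoint_singleton_right,
        Finset.disjoint_singleton_right]
      exact ⟨by simp, fun h3 => hdt (Finset.mem_of_mem_erase h3)⟩
    have hsub : ((t.erase x : Finset (Fin 7)) : Set (Fin 7)) ⊆ N.E := by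
      rw [hE, Set.subset_compl_iff_disjoint_right, Finset.disjoint_coe]
      exact hA
    have hb := (h.2 _ hsub).2 (by
      rw [Set.ncard_coe_finset, Finset.card_erase_of_mem hxt, lines_card t ht])
    rw [hB] at hb
    have hu : t.erase x ∪ {x} = t := by
      rw [Finset.union_comm, ← Finset.insert_eq, Finset.insert_erase hxt]
    rw [hu] at hb
    exact nf_line ht hb.2
  · intro h
    obtain ⟨X, D, hXD, hE, h1, h2, hB⟩ := uniform_data hN h
    have hX : X = ∅ := Finset.card_eq_zero.1 (by omega)
    subst hX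
    obtain ⟨d₁, d₂, _, rfl⟩ := Finset.card_eq_two.1 (show D.card = 2 by
      rw [Finset.card_empty] at h2; omega)
    obtain ⟨t, ht, h3, h4⟩ := lines_two d₁ d₂
    have hA : Disjoint t (∅ ∪ {d₁, d₂}) := by
      rw [Finset.empty_union, Finset.disjoint_insert_right, Finset.disjoint_singleton_right]
      exact ⟨h3, h4⟩
    have hsub : ((t : Finset (Fin 7)) : Set (Fin 7)) ⊆ N.E := by
      rw [hE, Set.subset_compl_iff_disjoint_right, Finset.disjoint_coe]
      exact hA
    have hb := (h.2 _ hsub).2 (by rw [Set.ncard_coe_finset, lines_card t ht])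
    rw [hB, Finset.union_empty] at hb
    exact nf_line ht hb.2
  · intro h
    have h1 : N.E.ncard = 7 := by
      obtain ⟨φ, h2, _⟩ := h
      have h3 : N.E.ncard = fano.E.ncard := by
        rw [← h2.image_eq, h2.injOn.ncard_image]
      rw [h3]
      show (Set.univ : Set (Fin 7)).ncard = 7
      rw [Set.ncard_univ, Nat.card_eq_fintype_card, Fintype.card_fin]
    rw [hfull h1] at h
    have h2 := (iso_of rfl rfl h).ncard
    rw [nonFano_hb.1.ncard, fano_hb.1.ncard] at h2
    exact absurd h2 (by decide)
  · intro h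
    have h1 : N.E.ncard = 7 := by
      obtain ⟨φ, h2, _⟩ := h
      have h3 : N.E.ncard = fano✶.E.ncard := by
        rw [← h2.image_eq, h2.injOn.ncard_image]
      rw [h3]
      show (Set.univ : Set (Fin 7)).ncard = 7
      rw [Set.ncard_univ, Nat.card_eq_fintype_card, Fintype.card_fin]
    rw [hfull h1] at h
    have h2 := (iso_of rfl rfl h).eRank
    rw [nonFano_hb.2, eRank_dual fano rfl fano_hb.2, Fintype.card_fin] at h2
    have h3 : (3 : ℕ) = 7 - 3 := by exact_mod_cast h2
    omega

end Pool.Agent.Results.MP_cf16d9_co.NonFanoDiscrete
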